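import Pool.Agent.H73.CBE.Stmts

/-!
Row `SHL` of the board `cbe` (helper73).
-/

set_option autoImplicit false

open Set Filter Topology

namespace Pool.CBE

private theorem shl_interp (D P Y a : ℝ) (hD : 0 ≤ D) (hP : 0 ≤ P) (hY : 0 ≤ Y) (ha0 : 0 < a)
    (ha1 : a < 1) (h1 : D ≤ P) (h2 : D ≤ P * Y) : D ≤ P * Y ^ a := by
  have e1 : D = D ^ (1 - a) * D ^ a := by
    rw [← Real.rpow_add_of_nonneg hD (by linarith) ha0.le]
    have : (1 - a) + a = 1 := by ring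
    rw [this, Real.rpow_one]
  have e2 : P = P ^ (1 - a) * P ^ a := by
    rw [← Real.rpow_add_of_nonneg hP (by linarith) ha0.le]
    have : (1 - a) + a = 1 := by ring
    rw [this, Real.rpow_one]
  have h3 : D ^ (1 - a) ≤ P ^ (1 - a) := Real.rpow_le_rpow hD h1 (by linarith)
  have h4 : D ^ a ≤ (P * Y) ^ a := Real.rpow_le_rpow hD h2 ha0.le
  calc D = D ^ (1 - a) * D ^ a := e1
    _ ≤ P ^ (1 - a) * (P * Y) ^ a :=
        mul_le_mul h3 h4 (Real.rpow_nonneg hD _) (Real.rpow_nonneg hP _)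
    _ = (P ^ (1 - a) * P ^ a) * Y ^ a := by rw [Real.mul_rpow hP hY]; ring
    _ = P * Y ^ a := by rw [← e2]

theorem SHL_thm (hU : UKLStmt) (hS : SDFStmt) : SHLStmt := by
  intro n f d η C θ a hyp
  obtain ⟨L, hL, hk⟩ := hU n f d η C θ a hyp
  have hder := hS n f d η C θ a hyp
  have hθ := hyp.hθ
  have ha0 := hyp.ha0
  have ha1 := hyp.ha1
  have hd2 : (2 : ℝ) ≤ d := by exact_mod_cast hyp.hd
  have hd0 : (0 : ℝ) < d := by linarith
  set T : ℝ := θ ^ (1 + a) with hT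
  have hTd : T < d := hyp.hθa
  have hθT : θ ≤ T := by
    calc θ = θ ^ (1 : ℝ) := (Real.rpow_one θ).symm
      _ ≤ θ ^ (1 + a) := Real.rpow_le_rpow_of_exponent_le hθ (by linarith)
  have hθ0 : 0 ≤ θ := by linarith
  have hT0 : 0 ≤ T := by linarith
  set ρ : ℝ := T / d with hρ
  have hρ0 : 0 ≤ ρ := div_nonneg hT0 hd0.le
  have hρ1 : ρ < 1 := by rw [hρ, div_lt_one hd0]; exact hTd
  have hgeo : ∀ c : ℝ, HasSum (fun k : ℕ => c * ρ ^ k) (c * (1 - ρ)⁻¹) := fun c =>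
    (hasSum_geometric_of_lt_one hρ0 hρ1).mul_left c
  have hpos : 0 < (1 - ρ)⁻¹ := inv_pos.mpr (by linarith)
  -- the weights
  have hw : ∀ (k : ℕ) (c : ℝ), 0 ≤ c → ((d : ℝ) ^ (k + 1))⁻¹ * (c * T ^ k) ≤ c * ρ ^ k := by
    intro k c hc
    have h1 : ((d : ℝ) ^ (k + 1))⁻¹ * (c * T ^ k) = c * ρ ^ k * (d : ℝ)⁻¹ := by
      rw [hρ, div_pow, pow_succ]
      field_simp
    rw [h1]
    have h2 : (d : ℝ)⁻¹ ≤ 1 := inv_le_one_of_one_le₀ (by linarith)
    have h3 : 0 ≤ c * ρ ^ k := mul_nonneg hc (pow_nonneg hρ0 k)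
    nlinarith
  have hA : ∀ (z : E n), 1 / 2 < ‖z‖ → ∀ k : ℕ,
      ‖((d : ℝ) ^ (k + 1))⁻¹ • fderiv ℝ (fun y => u f d (f^[k] y)) z‖ ≤ L * ρ ^ k := by
    intro z hz k
    rw [norm_smul, Real.norm_eq_abs, abs_of_nonneg (inv_nonneg.mpr (pow_nonneg hd0.le _))]
    have h1 := (hk k z z hz.le hz.le).2.1
    have h2 : L * θ ^ k ≤ L * T ^ k :=
      mul_le_mul_of_nonneg_left (pow_le_pow_left₀ hθ0 hθT k) hL.le
    refine (mul_le_mul_of_nonneg_left (h1.trans h2)
      (inv_nonneg.mpr (pow_nonneg hd0.le _))).trans ?_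
    exact hw k L hL.le
  refine ⟨2 * L * (1 - ρ)⁻¹, by positivity, fun z z' hz hz' => ⟨?_, ?_⟩⟩
  · rw [(hder z hz).2]
    refine (tsum_of_norm_bounded (hgeo L) (hA z hz)).trans ?_
    have : 0 ≤ L * (1 - ρ)⁻¹ := by positivity
    linarith
  · rw [(hder z hz).2, (hder z' hz').2]
    have hs1 : Summable fun k : ℕ =>
        ((d : ℝ) ^ (k + 1))⁻¹ • fderiv ℝ (fun y => u f d (f^[k] y)) z :=
      Summable.of_norm_bounded (hgeo L).summable (hA z hz)
    have hs2 : Summable fun k : ℕ =>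
        ((d : ℝ) ^ (k + 1))⁻¹ • fderiv ℝ (fun y => u f d (f^[k] y)) z' :=
      Summable.of_norm_bounded (hgeo L).summable (hA z' hz')
    rw [← hs1.tsum_sub hs2]
    set h : ℝ := ‖z - z'‖ with hh
    have hh0 : 0 ≤ h := norm_nonneg _
    have hterm : ∀ k : ℕ,
        ‖((d : ℝ) ^ (k + 1))⁻¹ • fderiv ℝ (fun y => u f d (f^[k] y)) z -
          ((d : ℝ) ^ (k + 1))⁻¹ • fderiv ℝ (fun y => u f d (f^[k] y)) z'‖ ≤
        (2 * L * h ^ a) * ρ ^ k := by
      intro k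
      rw [← smul_sub, norm_smul, Real.norm_eq_abs,
        abs_of_nonneg (inv_nonneg.mpr (pow_nonneg hd0.le _))]
      obtain ⟨-, b1, b2⟩ := hk k z z' hz.le hz'.le
      have b3 := (hk k z' z hz'.le hz.le).2.1
      set X : ℝ := θ ^ k with hX
      have hX0 : 0 ≤ X := pow_nonneg hθ0 k
      have c1 : ‖fderiv ℝ (fun y => u f d (f^[k] y)) z -
          fderiv ℝ (fun y => u f d (f^[k] y)) z'‖ ≤ 2 * L * X := by
        refine (norm_sub_le _ _).trans ?_
        linarith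
      have c2 : ‖fderiv ℝ (fun y => u f d (f^[k] y)) z -
          fderiv ℝ (fun y => u f d (f^[k] y)) z'‖ ≤ 2 * L * X * (X * h) := by
        refine b2.trans ?_
        have e : θ ^ (2 * k) = X * X := by rw [hX, two_mul, pow_add]
        rw [e]
        have : 0 ≤ L * (X * X) * h := by positivity
        nlinarith
      have c3 := shl_interp _ (2 * L * X) (X * h) a (norm_nonneg _) (by positivity)
        (mul_nonneg hX0 hh0) ha0 ha1 c1 c2
      have c4 : 2 * L * X * (X * h) ^ a = (2 * L * h ^ a) * T ^ k := by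
        rw [Real.mul_rpow hX0 hh0]
        have e1 : T ^ k = X * X ^ a := by
          rw [hT, Real.rpow_pow_comm hθ0, ← hX,
            Real.rpow_add_of_nonneg hX0 (by norm_num) ha0.le, Real.rpow_one]
        rw [e1]; ring
      rw [c4] at c3
      refine (mul_le_mul_of_nonneg_left c3 (inv_nonneg.mpr (pow_nonneg hd0.le _))).trans ?_
      exact hw k _ (by positivity)
    refine (tsum_of_norm_bounded (hgeo (2 * L * h ^ a)) hterm).trans (le_of_eq ?_)
    ring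

end Pool.CBE
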